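import Pool.Agent.X224.SG.Thin

/-!
# The thin Hindman theorem and Cantor-Bendixson rank

Let `c` be a colouring with infinitely many colours and `S` a nonempty finite set of colours.  If
the two-colouring `c n ∈ S` has a recurrent limit of finite Cantor-Bendixson rank in the set of its
limits along finite sums, then the thin Hindman theorem has arithmetical solutions for `c`.
-/

set_option autoImplicit false

namespace Pool.Agent.Results.MP_96c46d_lc.ThinFiniteRank

open Pool.Agent.Y579.HM Pool.Agent.Y545.HM.St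

/-- The limits of the set `A` along finite sums (as characteristic functions): for every `m` there
are `m` positive multiples of `m!` such that `x + s ∈ A` if and only if `g x = 1`, for all `x < m`
and all sums `s` of one or more of them. -/
def Limits (A : Set ℕ) : Set (ℕ → Fin 2) :=
  {g | ∀ m : ℕ, ∃ Y : List ℕ, Y.length = m ∧ (∀ y ∈ Y, 0 < y ∧ m.factorial ∣ y) ∧
    ∀ l : List ℕ, l.Sublist Y → l ≠ [] → ∀ x < m, (x + l.sum ∈ A ↔ g x = 1)}

/-- Recurrent limits of `A`: for every `m` there is a positive multiple `y` of `m!` such that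
`g (x + y) = g x`, and `x + y ∈ A` if and only if `g x = 1`, for all `x < m`. -/
def Recurrent (A : Set ℕ) (g : ℕ → Fin 2) : Prop :=
  ∀ m : ℕ, ∃ y : ℕ, 0 < y ∧ m.factorial ∣ y ∧ ∀ x < m, (x + y ∈ A ↔ g x = 1) ∧ g (x + y) = g x

/-- `X` is a solution of the thin Hindman theorem for `c`: it is an infinite set of positive
numbers, and some colour is not attained on the finite sums of its elements. -/
def Thin (c : ℕ → ℕ) (X : Set ℕ) : Prop :=
  X.Infinite ∧ 0 ∉ X ∧ ∃ i, ∀ F : Finset ℕ, (F : Set ℕ) ⊆ X → F.Nonempty → c (∑ x ∈ F, x) ≠ i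

/-- The graph of `c`, as a set of codes of pairs of natural numbers. -/
def graph (c : ℕ → ℕ) : Set ℕ := {n | c n.unpair.1 = n.unpair.2}

theorem ind_eq {A : Set ℕ} {x : ℕ} {i : Fin 2} :
    Pool.Agent.X224.SG.ind A x = i ↔ (x ∈ A ↔ i = 1) := by
  have h : Pool.Agent.X224.SG.ind A x = 1 ↔ x ∈ A := Pool.Agent.X224.SG.ind_one
  rw [← h]
  generalize Pool.Agent.X224.SG.ind A x = e
  revert i e
  decide

theorem limits_eq (A : Set ℕ) :
    Limits A = Pool.Agent.X224.HR.IPLimits (Pool.Agent.X224.SG.ind A) := by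
  ext g
  unfold Limits Pool.Agent.X224.HR.IPLimits
  simp only [Set.mem_setOf_eq, ind_eq]

theorem recurrent_iff {A : Set ℕ} {g : ℕ → Fin 2} :
    Recurrent A g ↔ Pool.Agent.X224.HR.Rcr (Pool.Agent.X224.SG.ind A) g := by
  unfold Recurrent Pool.Agent.X224.HR.Rcr
  simp only [ind_eq]

/-- **The thin Hindman theorem and Cantor-Bendixson rank.** -/
theorem result :
    -- every set has a recurrent limit, and recurrent limits are limits along finite sums
    (∀ A : Set ℕ, (∃ g, Recurrent A g) ∧ ∀ g, Recurrent A g → g ∈ Limits A) ∧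
    -- arithmetical solutions
    (∀ (c : ℕ → ℕ) (S : Finset ℕ) (r : ℕ) (g : ℕ → Fin 2), S.Nonempty →
      Recurrent {n | c n ∈ S} g → g ∉ derivedSet^[r] (Limits {n | c n ∈ S}) →
      ∃ Z X : Set ℕ, LevN (graph c) (3 * r + 1) (· ∈ Z) ∧ Thin c X ∧ Computes Z (char X)) ∧
    -- `ω`-models of arithmetical comprehension
    ∀ I : Set (Set ℕ), Ideal I → ACA I →
      ∀ c : ℕ → ℕ, (∃ A ∈ I, Computes A fun n => Part.some (c n)) →
        (∃ (S : Finset ℕ) (r : ℕ) (g : ℕ → Fin 2), S.Nonempty ∧ Recurrent {n | c n ∈ S} g ∧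
          g ∉ derivedSet^[r] (Limits {n | c n ∈ S})) → ∃ X ∈ I, Thin c X := by
  have key : ∀ (c : ℕ → ℕ) (S : Finset ℕ) (r : ℕ) (g : ℕ → Fin 2), S.Nonempty →
      Recurrent {n | c n ∈ S} g → g ∉ derivedSet^[r] (Limits {n | c n ∈ S}) →
      ∃ Z X : Set ℕ, LevN (graph c) (3 * r + 1) (· ∈ Z) ∧ Thin c X ∧
        Pool.Agent.Y545.HM.Dec Z X := by
    intro c S r g hS h1 h2
    rw [limits_eq] at h2
    exact Pool.Agent.X224.SG.thin_of hS (Pool.Agent.X224.HR.upper_rcr (recurrent_iff.1 h1) h2)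
  refine ⟨fun A => ⟨?_, fun g hg => ?_⟩, ?_, ?_⟩
  · obtain ⟨g, hg⟩ := Pool.Agent.X224.HR.exists_rcr (Pool.Agent.X224.SG.ind A)
    exact ⟨g, recurrent_iff.2 hg⟩
  · rw [limits_eq]
    exact Pool.Agent.X224.HR.rcr_limit (recurrent_iff.1 hg)
  · intro c S r g hS h1 h2
    obtain ⟨Z, X, h3, h4, h5⟩ := key c S r g hS h1 h2
    exact ⟨Z, X, h3, h4, computes_set.2 h5⟩
  · intro I hI hJ c ⟨A, hA, hc⟩ ⟨S, r, g, hS, h1, h2⟩
    obtain ⟨Z, X, h3, h4, h5⟩ := key c S r g hS h1 h2
    have hI' := ideal_iff.1 hI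
    have h6 : graph c ∈ I :=
      hI'.2.1 A hA _ (Pool.Agent.X224.SG.gph_dec (computes_fun.1 hc))
    have h7 := Pool.Agent.X224.HR.lev_ideal hI' (aca_iff.1 hJ) h6 h3
    exact ⟨X, hI'.2.1 Z h7 X h5, h4⟩

end Pool.Agent.Results.MP_96c46d_lc.ThinFiniteRank
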