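import Pool.Agent.X224.SG.Thin

/-!
# The thin Hindman theorem for colourings with a colour class of dimension one

A set `A` of natural numbers has no shattered translates if for sufficiently divisible `x > 0` and
`y > 0` one of the four patterns of `(y + u ∈ A, x + y + u ∈ A)` does not occur for sufficiently
divisible `u > 0`; this is true if `A` has asymptotic Vapnik-Chervonenkis dimension at most one.
We show that the thin Hindman theorem has arithmetical solutions for all colourings with infinitely
many colours for which the union of finitely many colour classes has no shattered translates, and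
that it is true in all `ω`-models of arithmetical comprehension for these colourings.
-/

set_option autoImplicit false

namespace Pool.Agent.Results.MP_96c46d_lc.ThinVCDimensionOne

open Pool.Agent.Y579.HM Pool.Agent.Y545.HM.St

/-- The asymptotic Vapnik-Chervonenkis dimension of `A` is at most one: for any two positive
numbers `x` and `y`, one of the four patterns of membership of `x + u` and `y + u` in `A` does not
occur for sufficiently divisible `u > 0`. -/
def DimensionOne (A : Set ℕ) : Prop :=
  ∀ x y : ℕ, 0 < x → 0 < y → ∃ P Q : Bool, ∃ m : ℕ,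
    ∀ u, 0 < u → m.factorial ∣ u → ¬ ((x + u ∈ A ↔ P = true) ∧ (y + u ∈ A ↔ Q = true))

/-- The set `A` has no shattered translates: if `x > 0` is sufficiently divisible, and `y > 0` is
sufficiently divisible (depending on `x`), then one of the four patterns of membership of `y + u`
and `x + y + u` in `A` does not occur for sufficiently divisible `u > 0`. -/
def Unshattered (A : Set ℕ) : Prop :=
  ∃ N : ℕ, ∀ x, 0 < x → N.factorial ∣ x → ∃ M : ℕ, ∀ y, 0 < y → M.factorial ∣ y →
    ∃ P Q : Bool, ∃ m : ℕ, ∀ u, 0 < u → m.factorial ∣ u →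
      ¬ ((y + u ∈ A ↔ P = true) ∧ (x + y + u ∈ A ↔ Q = true))

/-- `X` is a solution of the thin Hindman theorem for `c`: it is an infinite set of positive
numbers, and some colour is not attained on the finite sums of its elements. -/
def Thin (c : ℕ → ℕ) (X : Set ℕ) : Prop :=
  X.Infinite ∧ 0 ∉ X ∧ ∃ i, ∀ F : Finset ℕ, (F : Set ℕ) ⊆ X → F.Nonempty → c (∑ x ∈ F, x) ≠ i

/-- The graph of `c`, as a set of codes of pairs of natural numbers. -/
def graph (c : ℕ → ℕ) : Set ℕ := {n | c n.unpair.1 = n.unpair.2}

/-- **The thin Hindman theorem for colourings with a colour class of dimension one.** -/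
theorem result :
    (∀ A, DimensionOne A → Unshattered A) ∧
    -- arithmetical solutions
    (∀ (c : ℕ → ℕ) (S : Finset ℕ), S.Nonempty → Unshattered {n | c n ∈ S} →
      ∃ Z X : Set ℕ, LevN (graph c) 64 (· ∈ Z) ∧ Thin c X ∧ Computes Z (char X)) ∧
    -- `ω`-models of arithmetical comprehension
    ∀ I : Set (Set ℕ), Ideal I → ACA I →
      ∀ c : ℕ → ℕ, (∃ A ∈ I, Computes A fun n => Part.some (c n)) →
        (∃ S : Finset ℕ, S.Nonempty ∧ Unshattered {n | c n ∈ S}) → ∃ X ∈ I, Thin c X := by
  have key : ∀ (c : ℕ → ℕ) (S : Finset ℕ), S.Nonempty → Unshattered {n | c n ∈ S} →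
      ∃ Z X : Set ℕ, LevN (graph c) 64 (· ∈ Z) ∧ Thin c X ∧ Pool.Agent.Y545.HM.Dec Z X :=
    fun c S hS h => Pool.Agent.X224.SG.thin_of hS
      (Pool.Agent.X224.SG.upper2 (Pool.Agent.X224.SG.cmb2_ind h))
  refine ⟨fun A h => Pool.Agent.X224.SG.uns2_of_dim h, ?_, ?_⟩
  · intro c S hS h
    obtain ⟨Z, X, h1, h2, h3⟩ := key c S hS h
    exact ⟨Z, X, h1, h2, computes_set.2 h3⟩
  · intro I hI hJ c ⟨A, hA, hc⟩ ⟨S, hS, h⟩
    obtain ⟨Z, X, h3, h4, h5⟩ := key c S hS h
    have hI' := ideal_iff.1 hI
    have h6 : graph c ∈ I :=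
      hI'.2.1 A hA _ (Pool.Agent.X224.SG.gph_dec (computes_fun.1 hc))
    have h7 := Pool.Agent.X224.HR.lev_ideal hI' (aca_iff.1 hJ) h6 h3
    exact ⟨X, hI'.2.1 Z h7 X h5, h4⟩

end Pool.Agent.Results.MP_96c46d_lc.ThinVCDimensionOne
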